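import Mathlib

namespace Pool.Agent.Results.MP_1df74f_al.Yes

open MvPolynomial

/-- The toric ideal: kernel of `x_i ↦ t^{a_i}` into the Laurent ring `k[ℤ^d]`. -/
noncomputable def toric (k : Type) [Field k] {σ : Type} {d : ℕ} (A : σ → Fin d → ℤ) :
    Ideal (MvPolynomial σ k) :=
  RingHom.ker (aeval (fun i => AddMonoidAlgebra.single (A i) (1 : k)) :
    MvPolynomial σ k →ₐ[k] AddMonoidAlgebra k (Fin d → ℤ))

section defs
variable {k : Type} [Field k] {σ : Type}

/-- `f = x^u - x^v`. -/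
def IsBinomial (f : MvPolynomial σ k) : Prop :=
  ∃ u v : σ →₀ ℕ, f = monomial u 1 - monomial v 1

/-- Universal Markov basis: union of all minimal generating sets consisting of binomials. -/
def markov (I : Ideal (MvPolynomial σ k)) : Set (MvPolynomial σ k) :=
  {f | ∃ G : Set (MvPolynomial σ k), (∀ g ∈ G, IsBinomial g) ∧
    Minimal (fun H : Set (MvPolynomial σ k) => Ideal.span H = I) G ∧ f ∈ G}

/-- `G` is the reduced Groebner basis of `I` for the monomial order `m`. -/
structure IsReducedGB (m : MonomialOrder.{0, 0} σ) (I : Ideal (MvPolynomial σ k))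
    (G : Set (MvPolynomial σ k)) : Prop where
  finite : G.Finite
  mem : ∀ g ∈ G, g ∈ I
  monic : ∀ g ∈ G, m.Monic g
  lead : ∀ f ∈ I, f ≠ 0 → ∃ g ∈ G, m.degree g ≤ m.degree f
  reduced : ∀ g ∈ G, ∀ g' ∈ G, g ≠ g' → ∀ a ∈ g.support, ¬ m.degree g' ≤ a

/-- Universal Groebner basis: union of the reduced Groebner bases over all monomial orders. -/
def ugb (I : Ideal (MvPolynomial σ k)) : Set (MvPolynomial σ k) :=
  {f | ∃ (m : MonomialOrder.{0, 0} σ) (G : Set (MvPolynomial σ k)), IsReducedGB m I G ∧ f ∈ G}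

/-- Generalized robust: `U = M`. -/
def GenRobust (I : Ideal (MvPolynomial σ k)) : Prop := ugb I = markov I

/-- Generalized robust, binomials being taken up to sign: `±U = M`. -/
def GenRobustPM (I : Ideal (MvPolynomial σ k)) : Prop :=
  {f | f ∈ ugb I ∨ -f ∈ ugb I} = markov I

end defs

/-! ### Monomial orders -/

def Syn (σ : Type) : Type := σ →₀ ℕ

noncomputable instance (σ : Type) : AddCommMonoid (Syn σ) :=
  inferInstanceAs (AddCommMonoid (σ →₀ ℕ))

lemma lexOrder {σ β : Type} [AddCommMonoid β] [LinearOrder β] [IsOrderedCancelAddMonoid β]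
    [WellFoundedLT β] (ψ : (σ →₀ ℕ) →+ β) (hψ : Monotone ψ) (m0 : MonomialOrder.{0, 0} σ) :
    ∃ m : MonomialOrder.{0, 0} σ, ∀ a b, m.toSyn a < m.toSyn b ↔
      ψ a < ψ b ∨ (ψ a = ψ b ∧ m0.toSyn a < m0.toSyn b) := by
  let φ : Syn σ → β ×ₗ m0.syn := fun a => toLex (ψ a, m0.toSyn a)
  have hφ : Function.Injective φ := fun a b h => by
    have := congrArg (fun x => (ofLex x).2) h
    exact m0.toSyn.injective this
  letI lo : LinearOrder (Syn σ) := LinearOrder.lift' φ hφ
  have hle : ∀ a b : Syn σ, a ≤ b ↔ φ a ≤ φ b := fun _ _ => Iff.rfl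
  have hlt : ∀ a b : Syn σ, a < b ↔ φ a < φ b := fun _ _ => Iff.rfl
  have hadd : ∀ a b : Syn σ, φ (a + b) = φ a + φ b := fun a b => by
    have h1 := ψ.map_add a b
    have h2 := m0.toSyn.map_add a b
    exact congrArg toLex (Prod.ext h1 h2)
  refine ⟨{ syn := Syn σ
            linearOrderSyn := lo
            isOrderedAddMonoid_syn := { add_le_add_left := fun a b h c => ?_ }
            toSyn := AddEquiv.refl _
            toSyn_monotone := fun a b h => ?_
            wellFoundedLT_syn := ⟨?_⟩ }, fun a b => ?_⟩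
  · rw [hle, hadd, hadd]
    exact add_le_add_left ((hle _ _).1 h) _
  · change φ a ≤ φ b
    exact Prod.Lex.toLex_mono ⟨hψ h, m0.toSyn_monotone h⟩
  · exact InvImage.wf φ wellFounded_lt
  · change φ a < φ b ↔ _
    exact Prod.Lex.toLex_lt_toLex

lemma exOrder (σ : Type) [Finite σ] : Nonempty (MonomialOrder.{0, 0} σ) := by
  obtain ⟨n, ⟨e⟩⟩ := Finite.exists_equiv_fin σ
  letI : LinearOrder σ := LinearOrder.lift' e e.injective
  exact ⟨MonomialOrder.lex⟩

/-! ### Binomials and functionals -/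

variable {k : Type} [Field k] {σ τ : Type} {d : ℕ}

noncomputable def Bin (k : Type) [Field k] (u v : σ →₀ ℕ) : MvPolynomial σ k :=
  monomial u 1 - monomial v 1

noncomputable def dg (A : σ → Fin d → ℤ) : (σ →₀ ℕ) →ₗ[ℕ] (Fin d → ℤ) :=
  Finsupp.linearCombination ℕ A

noncomputable def ev (k : Type) [Field k] (A : σ → Fin d → ℤ) :
    MvPolynomial σ k →ₐ[k] AddMonoidAlgebra k (Fin d → ℤ) :=
  aeval (fun i => AddMonoidAlgebra.single (A i) (1 : k))

lemma mem_toric {A : σ → Fin d → ℤ} {f : MvPolynomial σ k} : f ∈ toric k A ↔ ev k A f = 0 :=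
  Iff.rfl

lemma ev_mon (A : σ → Fin d → ℤ) (u : σ →₀ ℕ) :
    ev k A (monomial u 1) = AddMonoidAlgebra.single (dg A u) 1 := by
  induction u using Finsupp.induction_linear with
  | zero => rw [map_zero]; exact map_one _
  | add a b ha hb =>
    rw [← mul_one (1 : k), ← monomial_mul, map_mul, ha, hb, AddMonoidAlgebra.single_mul_single,
      map_add, mul_one]
  | single i n =>
    rw [← X_pow_eq_monomial, map_pow, ev, aeval_X, AddMonoidAlgebra.single_pow, one_pow, dg,
      Finsupp.linearCombination_single]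

noncomputable def fn (k : Type) [Field k] {V : Type} [AddCommGroup V] [Module k V]
    (F : (σ →₀ ℕ) → V) : MvPolynomial σ k →ₗ[k] V := (basisMonomials σ k).constr k F

lemma fn_mon {V : Type} [AddCommGroup V] [Module k V] (F : (σ →₀ ℕ) → V) (u : σ →₀ ℕ) :
    fn k F (monomial u 1) = F u := by
  have := (basisMonomials σ k).constr_basis k F u
  simpa [fn] using this

lemma fn_bin {V : Type} [AddCommGroup V] [Module k V] (F : (σ →₀ ℕ) → V) (u v : σ →₀ ℕ) :
    fn k F (Bin k u v) = F u - F v := by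
  rw [Bin, map_sub, fn_mon, fn_mon]

lemma fn_sum {V : Type} [AddCommGroup V] [Module k V] (F : (σ →₀ ℕ) → V) (f : MvPolynomial σ k) :
    fn k F f = ∑ a ∈ f.support, coeff a f • F a := by
  conv_lhs => rw [f.as_sum, map_sum]
  refine Finset.sum_congr rfl fun a _ => ?_
  rw [← fn_mon (k := k) F a, ← map_smul, smul_monomial, smul_eq_mul, mul_one]

lemma fn_toric {V : Type} [AddCommGroup V] [Module k V] {A : σ → Fin d → ℤ}
    (F : (Fin d → ℤ) → V) {f : MvPolynomial σ k} (hf : f ∈ toric k A) :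
    fn k (fun u => F (dg A u)) f = 0 := by
  have : fn k (fun u => F (dg A u)) =
      ((AddMonoidAlgebra.basis (Fin d → ℤ) k).constr k F) ∘ₗ (ev k A).toLinearMap := by
    refine (basisMonomials σ k).ext fun u => ?_
    have h := (AddMonoidAlgebra.basis (Fin d → ℤ) k).constr_basis k F (dg A u)
    rw [AddMonoidAlgebra.basis_apply] at h
    simp only [coe_basisMonomials, fn_mon, LinearMap.comp_apply, AlgHom.toLinearMap_apply, ev_mon,
      h]
  rw [this, LinearMap.comp_apply, AlgHom.toLinearMap_apply, mem_toric.1 hf, map_zero]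

lemma bin_mem {A : σ → Fin d → ℤ} {u v : σ →₀ ℕ} : Bin k u v ∈ toric k A ↔ dg A u = dg A v := by
  classical
  refine ⟨fun h => ?_, fun h => ?_⟩
  · have := fn_toric (fun b => if b = dg A v then (1 : k) else 0) h
    rw [fn_bin] at this
    by_contra hne
    simp [hne] at this
  · rw [mem_toric, Bin, map_sub, ev_mon, ev_mon, h, sub_self]

lemma mon_mul_bin (c u v : σ →₀ ℕ) : monomial c 1 * Bin k u v = Bin k (u + c) (v + c) := by
  rw [Bin, Bin, mul_sub, monomial_mul, monomial_mul, mul_one, add_comm c, add_comm c]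

lemma fn_span (F : (σ →₀ ℕ) → k) {G : Set (MvPolynomial σ k)}
    (h : ∀ g ∈ G, ∀ c, fn k F (monomial c 1 * g) = 0) {p : MvPolynomial σ k}
    (hp : p ∈ Ideal.span G) : fn k F p = 0 := by
  have key : ∀ q, fn k F (q * p) = 0 := by
    induction hp using Submodule.span_induction with
    | mem g hg =>
      intro q
      induction q using MvPolynomial.induction_on' with
      | monomial c r =>
        have : (monomial c r : MvPolynomial σ k) = r • monomial c 1 := by
          rw [smul_monomial, smul_eq_mul, mul_one]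
        rw [this, smul_mul_assoc, map_smul, h g hg, smul_zero]
      | add p q hp hq => rw [add_mul, map_add, hp, hq, add_zero]
    | zero => intro q; rw [mul_zero, map_zero]
    | add x y _ _ hx hy => intro q; rw [mul_add, map_add, hx, hy, add_zero]
    | smul r x _ hx => intro q; rw [smul_eq_mul, ← mul_assoc, hx]
  simpa using key 1

lemma coeff_bin [DecidableEq σ] (a u v : σ →₀ ℕ) :
    coeff a (Bin k u v) = (if u = a then 1 else 0) - (if v = a then 1 else 0) := by
  rw [Bin, coeff_sub, coeff_monomial, coeff_monomial]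

lemma supp_bin {a u v : σ →₀ ℕ} (h : a ∈ (Bin k u v).support) : a = u ∨ a = v := by
  classical
  rw [mem_support_iff, coeff_bin] at h
  by_contra hc
  push Not at hc
  simp [hc.1.symm, hc.2.symm] at h

lemma left_supp {u v : σ →₀ ℕ} (h : u ≠ v) : u ∈ (Bin k u v).support := by
  classical
  rw [mem_support_iff, coeff_bin]; simp [h.symm]

lemma right_supp {u v : σ →₀ ℕ} (h : u ≠ v) : v ∈ (Bin k u v).support := by
  classical
  rw [mem_support_iff, coeff_bin]; simp [h]

lemma toric_le {A : σ → Fin d → ℤ} {J : Ideal (MvPolynomial σ k)}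
    (h : ∀ u v, dg A u = dg A v → Bin k u v ∈ J) : toric k A ≤ J := by
  intro f hf
  have h0 := fn_toric (fun b => (monomial (Function.invFun (dg A) b) 1 : MvPolynomial σ k)) hf
  have h1 : fn k (fun u => (monomial u 1 : MvPolynomial σ k)) f = f := by
    rw [fn_sum]
    conv_rhs => rw [f.as_sum]
    refine Finset.sum_congr rfl fun a _ => ?_
    rw [smul_monomial, smul_eq_mul, mul_one]
  rw [← h1, ← sub_zero (fn k _ f), ← h0, fn_sum, fn_sum, ← Finset.sum_sub_distrib]
  refine Ideal.sum_mem _ fun a _ => ?_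
  rw [← smul_sub, smul_eq_C_mul]
  exact J.mul_mem_left _ (h _ _ (Function.invFun_eq ⟨a, rfl⟩).symm)

/-! ### The universal Markov basis -/

/-- Same degree and a common variable. -/
def Step (A : σ → Fin d → ℤ) (a b : σ →₀ ℕ) : Prop :=
  dg A a = dg A b ∧ ∃ i, a i ≠ 0 ∧ b i ≠ 0

def Con (A : σ → Fin d → ℤ) : (σ →₀ ℕ) → (σ →₀ ℕ) → Prop := Relation.EqvGen (Step A)

lemma con_eqv (A : σ → Fin d → ℤ) : Equivalence (Con A) := Relation.EqvGen.is_equivalence _

lemma con_dg {A : σ → Fin d → ℤ} {a b : σ →₀ ℕ} (h : Con A a b) : dg A a = dg A b := by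
  induction h with
  | rel _ _ h => exact h.1
  | refl => rfl
  | symm _ _ _ h => exact h.symm
  | trans _ _ _ _ _ h h' => exact h.trans h'

lemma con_add {A : σ → Fin d → ℤ} {a b c : σ →₀ ℕ} (h : dg A a = dg A b) (hc : c ≠ 0) :
    Con A (a + c) (b + c) := by
  obtain ⟨i, hi⟩ := Finsupp.ne_iff.1 hc
  refine Relation.EqvGen.rel _ _ ⟨by rw [map_add, map_add, h], i, ?_, ?_⟩ <;>
    simp only [Finsupp.add_apply, Finsupp.zero_apply] at hi ⊢ <;> omega

lemma step_split {A : σ → Fin d → ℤ} {a b : σ →₀ ℕ} (h : Step A a b) :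
    ∃ a' b' i, a = a' + Finsupp.single i 1 ∧ b = b' + Finsupp.single i 1 ∧ dg A a' = dg A b' := by
  obtain ⟨h, i, ha, hb⟩ := h
  have h1 : a = (a - Finsupp.single i 1) + Finsupp.single i 1 :=
    (tsub_add_cancel_of_le (Finsupp.single_le_iff.2 (by omega))).symm
  have h2 : b = (b - Finsupp.single i 1) + Finsupp.single i 1 :=
    (tsub_add_cancel_of_le (Finsupp.single_le_iff.2 (by omega))).symm
  refine ⟨_, _, i, h1, h2, ?_⟩
  rw [h1, h2, map_add, map_add] at h
  exact add_right_cancel h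

/-- A positive grading. -/
structure Grading (A : σ → Fin d → ℤ) (W : (Fin d → ℤ) →+ ℚ) : Prop where
  pos : ∀ i, 0 < W (A i)

lemma W_single {A : σ → Fin d → ℤ} (W : (Fin d → ℤ) →+ ℚ) (a : σ →₀ ℕ) (i : σ) :
    W (dg A (a + Finsupp.single i 1)) = W (dg A a) + W (A i) := by
  rw [map_add, map_add, dg, Finsupp.linearCombination_single, one_smul]

lemma W_nonneg {A : σ → Fin d → ℤ} {W : (Fin d → ℤ) →+ ℚ} (hW : Grading A W) (a : σ →₀ ℕ) :
    0 ≤ W (dg A a) := by
  induction a using Finsupp.induction_linear with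
  | zero => simp
  | add a b ha hb => rw [map_add, map_add]; exact add_nonneg ha hb
  | single i n =>
    rw [dg, Finsupp.linearCombination_single, map_nsmul]
    exact nsmul_nonneg (hW.pos i).le n

lemma bin_refl (a : σ →₀ ℕ) : Bin k a a = 0 := sub_self _

lemma bin_symm {J : Ideal (MvPolynomial σ k)} {a b : σ →₀ ℕ} (h : Bin k a b ∈ J) :
    Bin k b a ∈ J := by
  have := J.neg_mem h
  rwa [Bin, neg_sub] at this

lemma bin_trans {J : Ideal (MvPolynomial σ k)} {a b c : σ →₀ ℕ} (h : Bin k a b ∈ J)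
    (h' : Bin k b c ∈ J) : Bin k a c ∈ J := by
  have := J.add_mem h h'
  rwa [Bin, Bin, sub_add_sub_cancel] at this

lemma bin_add {J : Ideal (MvPolynomial σ k)} {a b : σ →₀ ℕ} (h : Bin k a b ∈ J) (c : σ →₀ ℕ) :
    Bin k (a + c) (b + c) ∈ J := by
  rw [← mon_mul_bin]; exact J.mul_mem_left _ h

lemma con_mem {A : σ → Fin d → ℤ} {W : (Fin d → ℤ) →+ ℚ} {J : Ideal (MvPolynomial σ k)}
    {a b : σ →₀ ℕ} (h : Con A a b)
    (hJ : ∀ a' b' i, dg A a' = dg A b' → W (dg A a') + W (A i) = W (dg A a) → Bin k a' b' ∈ J) :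
    Bin k a b ∈ J := by
  induction h with
  | rel a b h =>
    obtain ⟨a', b', i, rfl, rfl, h'⟩ := step_split h
    exact bin_add (hJ a' b' i h' (W_single W _ _).symm) _
  | refl => rw [bin_refl]; exact J.zero_mem
  | symm a b h ih => exact bin_symm (ih (by rw [con_dg h]; exact hJ))
  | trans a b c h _ ih ih' => exact bin_trans (ih hJ) (ih' (by rw [← con_dg h]; exact hJ))

lemma markov_imp {A : σ → Fin d → ℤ} {W : (Fin d → ℤ) →+ ℚ} (hW : Grading A W) {u v : σ →₀ ℕ}
    (h : Bin k u v ∈ markov (toric k A)) : dg A u = dg A v ∧ ¬ Con A u v := by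
  classical
  obtain ⟨G, hb, hG, hf⟩ := h
  have hGI : ∀ g ∈ G, g ∈ toric k A := fun g hg => hG.prop ▸ Ideal.subset_span hg
  have huv := bin_mem.1 (hGI _ hf)
  refine ⟨huv, fun hc => ?_⟩
  have hmem : Bin k u v ∈ Ideal.span (G \ {Bin k u v}) := by
    refine con_mem (W := W) hc fun a' b' i hab hW' => ?_
    have hp : Bin k a' b' ∈ Ideal.span G := hG.prop ▸ bin_mem.2 hab
    have := fn_span (fun x => if W (dg A x) = W (dg A a') ∧
      Bin k x b' ∈ Ideal.span (G \ {Bin k u v}) then (1 : k) else 0) (fun g hg c => ?_) hp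
    · rw [fn_bin, if_pos (c := W (dg A b') = _ ∧ _)
        ⟨by rw [hab], by rw [bin_refl]; exact Ideal.zero_mem _⟩] at this
      by_contra hn
      simp [hn] at this
    · by_cases hgf : g = Bin k u v
      · have h1 := W_nonneg hW c
        have h2 := hW.pos i
        rw [hgf, mon_mul_bin, fn_bin, if_neg, if_neg, sub_self]
        · rw [map_add, map_add, ← huv]; intro h; linarith [h.1]
        · rw [map_add, map_add]; intro h; linarith [h.1]
      · obtain ⟨p, q, rfl⟩ := hb g hg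
        have hpq : dg A p = dg A q := bin_mem.1 (hGI _ hg)
        have hm : Bin k (p + c) (q + c) ∈ Ideal.span (G \ {Bin k u v}) :=
          bin_add (Ideal.subset_span (Set.mem_diff_of_mem hg hgf)) c
        change fn k _ (monomial c 1 * Bin k p q) = 0
        rw [mon_mul_bin, fn_bin, sub_eq_zero]
        refine if_congr (and_congr ?_ ⟨bin_trans (bin_symm hm), bin_trans hm⟩) rfl rfl
        rw [map_add, map_add (dg A), hpq]
  have hsp : Ideal.span (G \ {Bin k u v}) = toric k A := by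
    refine le_antisymm (hG.prop ▸ Ideal.span_mono Set.diff_subset) ?_
    rw [← hG.prop, Ideal.span_le]
    intro g hg
    by_cases hgf : g = Bin k u v
    · rw [hgf]; exact hmem
    · exact Ideal.subset_span ⟨hg, hgf⟩
  exact (hG.le_of_le hsp Set.diff_subset hf).2 rfl

lemma markov_of [Finite σ] {A : σ → Fin d → ℤ} {W : (Fin d → ℤ) →+ ℚ} (hW : Grading A W)
    {u v : σ →₀ ℕ} (huv : dg A u = dg A v) (hc : ¬ Con A u v) :
    Bin k u v ∈ markov (toric k A) := by
  classical
  have E := con_eqv A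
  -- representatives of components and roots of fibres
  obtain ⟨r, hr1, hr2, hru, hrv⟩ : ∃ r : (σ →₀ ℕ) → (σ →₀ ℕ), (∀ a, Con A a (r a)) ∧
      (∀ a b, Con A a b → r a = r b) ∧ r u = u ∧ r v = v := by
    let S : Setoid (σ →₀ ℕ) := ⟨Con A, E⟩
    refine ⟨fun a => if Con A a u then u else if Con A a v then v else (Quotient.mk S a).out,
      fun a => ?_, fun a b h => ?_, if_pos (E.refl u), ?_⟩
    · dsimp only
      split_ifs with h1 h2
      exacts [h1, h2, E.symm (Quotient.mk_out (s := S) a)]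
    · have h1 : Con A a u ↔ Con A b u := ⟨E.trans (E.symm h), E.trans h⟩
      have h2 : Con A a v ↔ Con A b v := ⟨E.trans (E.symm h), E.trans h⟩
      have h3 : Quotient.mk S a = Quotient.mk S b := Quotient.sound h
      simp only [h1, h2, h3]
    · dsimp only
      rw [if_neg (fun h => hc (E.symm h)), if_pos (E.refl v)]
  obtain ⟨R, hR1, hRu⟩ : ∃ R : (Fin d → ℤ) → (σ →₀ ℕ), (∀ a, dg A (R (dg A a)) = dg A a) ∧
      R (dg A u) = v := by
    refine ⟨fun b => if b = dg A u then v else Function.invFun (dg A) b, fun a => ?_, if_pos rfl⟩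
    dsimp only
    split_ifs with h
    · rw [h, huv]
    · exact Function.invFun_eq ⟨a, rfl⟩
  have hrd : ∀ a, dg A (r a) = dg A (r (R (dg A a))) := fun a => by
    rw [← con_dg (hr1 a), ← con_dg (hr1 _), hR1]
  obtain ⟨G, hG⟩ : ∃ G : Set (MvPolynomial σ k),
    G = {g | ∃ a, ¬ Con A a (R (dg A a)) ∧ g = Bin k (r a) (r (R (dg A a)))} := ⟨_, rfl⟩
  have hGI : Ideal.span G ≤ toric k A := by
    rw [Ideal.span_le, hG]
    rintro _ ⟨a, -, rfl⟩
    exact bin_mem.2 (hrd a)
  obtain ⟨μ, hμ, hμ'⟩ : ∃ μ : ℚ, 0 < μ ∧ ∀ i, μ ≤ W (A i) := by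
    cases isEmpty_or_nonempty σ with
    | inl h => exact ⟨1, one_pos, fun i => h.elim i⟩
    | inr h =>
      obtain ⟨i, hi⟩ := Finite.exists_min (fun i => W (A i))
      exact ⟨_, hW.pos i, hi⟩
  have key : ∀ n : ℕ, ∀ a b, dg A a = dg A b → W (dg A a) < n * μ → Bin k a b ∈ Ideal.span G := by
    intro n
    induction n with
    | zero => intro a b _ h; have := W_nonneg hW a; simp at h; linarith
    | succ n ih =>
      have h1 : ∀ a b, Con A a b → W (dg A a) < (n + 1 : ℕ) * μ → Bin k a b ∈ Ideal.span G := by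
        intro a b h hlt
        refine con_mem (W := W) h fun a' b' i h' e => ih _ _ h' ?_
        have := hμ' i
        push_cast at hlt
        linarith
      have h2 : ∀ a, W (dg A a) < (n + 1 : ℕ) * μ →
          Bin k a (r (R (dg A a))) ∈ Ideal.span G := by
        intro a hlt
        by_cases h : Con A a (R (dg A a))
        · exact h1 _ _ (E.trans h (hr1 _)) hlt
        · exact bin_trans (h1 _ _ (hr1 a) hlt) (Ideal.subset_span (hG ▸ ⟨a, h, rfl⟩))
      intro a b hab hlt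
      exact bin_trans (h2 a hlt) (bin_symm (hab ▸ h2 b (hab ▸ hlt)))
  have hsp : Ideal.span G = toric k A := by
    refine le_antisymm hGI (toric_le fun a b hab => ?_)
    obtain ⟨n, hn⟩ := exists_nat_gt (W (dg A a) / μ)
    exact key n a b hab ((div_lt_iff₀ hμ).1 hn)
  refine ⟨G, ?_, ⟨hsp, fun H hH hHG g hg => ?_⟩, hG ▸ ⟨u, by rwa [hRu], by rw [hRu, hru, hrv]⟩⟩
  · rw [hG]; rintro _ ⟨a, -, rfl⟩; exact ⟨_, _, rfl⟩
  · by_contra hgH
    have hgs : g ∈ Ideal.span H := hH ▸ hsp ▸ Ideal.subset_span hg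
    rw [hG] at hg
    obtain ⟨a, ha, rfl⟩ := hg
    have := fn_span (fun x => if Con A x a then (1 : k) else 0) (fun g' hg' c => ?_) hgs
    · rw [fn_bin, if_pos (E.symm (hr1 a)), if_neg fun h => ha (E.symm (E.trans (hr1 _) h))] at this
      simp at this
    · have hg'' := hHG hg'
      rw [hG] at hg''
      obtain ⟨b, hb, rfl⟩ := hg''
      rw [mon_mul_bin, fn_bin, sub_eq_zero]
      by_cases hc0 : c = 0
      · rw [hc0, add_zero, add_zero, if_neg, if_neg]
        · intro h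
          have h' := E.trans (hr1 _) h
          have := con_dg h'
          rw [hR1] at this
          rw [this] at h'
          exact ha (E.symm h')
        · intro h
          have h' := E.trans (hr1 _) h
          rw [hr2 _ _ h', con_dg h'] at hg'
          exact hgH hg'
      · have := con_add (hrd b) hc0
        exact if_congr ⟨E.trans (E.symm this), E.trans this⟩ rfl rfl

/-! ### The universal Groebner basis -/

/-- `u` is not the least monomial of its fibre. -/
def NS (A : σ → Fin d → ℤ) (m : MonomialOrder.{0, 0} σ) (u : σ →₀ ℕ) : Prop :=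
  ∃ v, dg A v = dg A u ∧ m.toSyn v < m.toSyn u

/-- `(u, z)` gives an element of the reduced basis. -/
structure Good (A : σ → Fin d → ℤ) (m : MonomialOrder.{0, 0} σ) (u z : σ →₀ ℕ) : Prop where
  deg : dg A z = dg A u
  lt : m.toSyn z < m.toSyn u
  std : ¬ NS A m z
  min : ∀ a < u, ¬ NS A m a

lemma ns_mono {A : σ → Fin d → ℤ} {m : MonomialOrder.{0, 0} σ} {a b : σ →₀ ℕ} (h : a ≤ b)
    (ha : NS A m a) : NS A m b := by
  obtain ⟨c, rfl⟩ := exists_add_of_le h
  obtain ⟨v, h1, h2⟩ := ha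
  exact ⟨v + c, by rw [map_add, map_add, h1], by rw [map_add, map_add]; gcongr⟩

lemma ex_std (A : σ → Fin d → ℤ) (m : MonomialOrder.{0, 0} σ) (P : (σ →₀ ℕ) → Prop)
    {u : σ →₀ ℕ} (hu : P u) : ∃ z, P z ∧ ∀ y, P y → ¬ m.toSyn y < m.toSyn z := by
  obtain ⟨z, hz, h⟩ := (InvImage.wf m.toSyn wellFounded_lt).has_min {y | P y} ⟨u, hu⟩
  exact ⟨z, hz, h⟩

lemma ex_good {A : σ → Fin d → ℤ} {m : MonomialOrder.{0, 0} σ} {u : σ →₀ ℕ} (hu : NS A m u)
    (hmin : ∀ a < u, ¬ NS A m a) : ∃ z, Good A m u z := by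
  obtain ⟨z, hz, h⟩ := ex_std A m (fun y => dg A y = dg A u) (u := u) rfl
  obtain ⟨v, h1, h2⟩ := hu
  exact ⟨z, hz, (not_lt.1 (h v h1)).trans_lt h2, fun ⟨y, h3, h4⟩ => h y (h3.trans hz) h4, hmin⟩

lemma lead_ns {A : σ → Fin d → ℤ} (m : MonomialOrder.{0, 0} σ) {f : MvPolynomial σ k}
    (hf : f ∈ toric k A) (h0 : f ≠ 0) : NS A m (m.degree f) := by
  classical
  by_contra hn
  have := fn_toric (fun b => if b = dg A (m.degree f) then (1 : k) else 0) hf
  rw [fn_sum, Finset.sum_eq_single (m.degree f)] at this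
  · rw [if_pos rfl, smul_eq_mul, mul_one] at this
    exact h0 (MonomialOrder.coeff_degree_eq_zero_iff.1 this)
  · intro b hb hne
    rw [if_neg, smul_zero]
    exact fun h => hn ⟨b, h, lt_of_le_of_ne (m.le_degree hb) fun e => hne (m.toSyn.injective e)⟩
  · intro h
    exact absurd (m.degree_mem_support h0) h

lemma deg_bin {m : MonomialOrder.{0, 0} σ} {u z : σ →₀ ℕ} (h : m.toSyn z < m.toSyn u) :
    m.degree (Bin k u z) = u ∧ m.Monic (Bin k u z) := by
  classical
  have hne : u ≠ z := fun e => by simp [e] at h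
  have h1 : m.degree (Bin k u z) = u := by
    refine m.toSyn.injective (le_antisymm (MonomialOrder.degree_le_iff.2 fun c hc => ?_)
      (m.le_degree (left_supp hne)))
    rcases supp_bin hc with rfl | rfl
    exacts [le_rfl, h.le]
  refine ⟨h1, ?_⟩
  rw [MonomialOrder.Monic, MonomialOrder.leadingCoeff, h1, coeff_bin]
  simp [hne.symm]

lemma ugb_imp {A : σ → Fin d → ℤ} {f : MvPolynomial σ k} (hf : f ∈ ugb (toric k A)) :
    ∃ m u z, Good A m u z ∧ f = Bin k u z := by
  classical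
  obtain ⟨m, G, hG, hf⟩ := hf
  have hns := lead_ns m (hG.mem f hf) (hG.monic f hf).ne_zero
  obtain ⟨z, hz⟩ := ex_good hns fun a ha ⟨v, h1, h2⟩ => by
    obtain ⟨g, hg, hle⟩ := hG.lead _ (bin_mem.2 h1.symm) (deg_bin (k := k) h2).2.ne_zero
    rw [(deg_bin h2).1] at hle
    refine hG.reduced f hf g hg (fun e => ?_) _ (m.degree_mem_support (hG.monic f hf).ne_zero)
      (hle.trans ha.le)
    rw [← e] at hle
    exact absurd ha (not_lt_of_ge hle)
  refine ⟨m, _, z, hz, ?_⟩
  by_contra hne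
  have h0 : f - Bin k (m.degree f) z ≠ 0 := sub_ne_zero.2 hne
  have hI : f - Bin k (m.degree f) z ∈ toric k A :=
    Ideal.sub_mem _ (hG.mem f hf) (bin_mem.2 hz.deg.symm)
  obtain ⟨g, hg, hle⟩ := hG.lead _ hI h0
  have hs := m.degree_mem_support h0
  have hn := lead_ns m hI h0
  generalize m.degree (f - Bin k (m.degree f) z) = a at hle hs hn
  have haz : z ≠ a := fun e => hz.std (e ▸ hn)
  rw [mem_support_iff, coeff_sub, coeff_bin, if_neg haz, sub_zero] at hs
  have hau : m.degree f ≠ a := fun e => by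
    rw [if_pos e, ← e, (hG.monic f hf).coeff_degree, sub_self] at hs
    exact hs rfl
  rw [if_neg hau, sub_zero, ← mem_support_iff] at hs
  refine hG.reduced f hf g hg (fun e => hau ?_) a hs hle
  rw [← e] at hle
  exact m.toSyn.injective (le_antisymm (m.toSyn_monotone hle) (m.le_degree hs))

lemma ugb_of [Finite σ] {A : σ → Fin d → ℤ} {m : MonomialOrder.{0, 0} σ} {u z : σ →₀ ℕ}
    (h : Good A m u z) : Bin k u z ∈ ugb (toric k A) := by
  have uniq : ∀ {a b b'}, Good A m a b → Good A m a b' → b = b' := fun {a b b'} h h' =>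
    m.toSyn.injective (le_antisymm
      (not_lt.1 fun hlt => h.std ⟨_, h'.deg.trans h.deg.symm, hlt⟩)
      (not_lt.1 fun hlt => h'.std ⟨_, h.deg.trans h'.deg.symm, hlt⟩))
  refine ⟨m, {g | ∃ a b, Good A m a b ∧ g = Bin k a b}, ⟨?_, ?_, ?_, ?_, ?_⟩, u, z, h, rfl⟩
  · have hfin : {a | ∃ b, Good A m a b}.Finite := by
      refine IsAntichain.finite_of_wellQuasiOrdered (r := (· ≤ ·)) ?_ wellQuasiOrdered_le
      rintro a ⟨b, hb⟩ a' ⟨b', hb'⟩ hne hle
      exact hb'.min a (lt_of_le_of_ne hle hne) ⟨b, hb.deg, hb.lt⟩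
    refine Set.Finite.of_finite_image (f := fun g => m.degree g) (hfin.subset ?_) ?_
    · rintro _ ⟨_, ⟨a, b, hab, rfl⟩, rfl⟩
      exact ⟨b, by simpa only [(deg_bin hab.lt).1] using hab⟩
    · rintro _ ⟨a, b, hab, rfl⟩ _ ⟨a', b', hab', rfl⟩ e
      simp only [(deg_bin hab.lt).1, (deg_bin hab'.lt).1] at e
      subst e
      rw [uniq hab hab']
  · rintro _ ⟨a, b, hab, rfl⟩
    exact bin_mem.2 hab.deg.symm
  · rintro _ ⟨a, b, hab, rfl⟩
    exact (deg_bin hab.lt).2
  · intro f hf h0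
    obtain ⟨a, ⟨ha, hle⟩, hmin⟩ := (wellFounded_lt (α := σ →₀ ℕ)).has_min
      {a | NS A m a ∧ a ≤ m.degree f} ⟨_, lead_ns m hf h0, le_rfl⟩
    obtain ⟨b, hb⟩ := ex_good ha fun c hc hn => hmin c ⟨hn, hc.le.trans hle⟩ hc
    exact ⟨_, ⟨a, b, hb, rfl⟩, by rwa [(deg_bin hb.lt).1]⟩
  · rintro _ ⟨a, b, hab, rfl⟩ _ ⟨a', b', hab', rfl⟩ hne c hc hle
    rw [(deg_bin hab'.lt).1] at hle
    have hn : NS A m a' := ⟨b', hab'.deg, hab'.lt⟩
    rcases supp_bin hc with rfl | rfl
    · rcases hle.lt_or_eq with hlt | rfl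
      · exact hab.min _ hlt hn
      · exact hne (by rw [uniq hab hab'])
    · exact hab.std (ns_mono hle hn)

/-! ### Elimination -/

open Finsupp (mapDomain comapDomain)

lemma dg_map (A : σ → Fin d → ℤ) (ι : τ → σ) (a : τ →₀ ℕ) :
    dg A (mapDomain ι a) = dg (A ∘ ι) a := Finsupp.linearCombination_mapDomain _ _ _

lemma ren_bin (ι : τ → σ) (a b : τ →₀ ℕ) :
    rename ι (Bin k a b) = Bin k (mapDomain ι a) (mapDomain ι b) := by
  rw [Bin, map_sub, rename_monomial, rename_monomial, Bin]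

lemma con_map {A : σ → Fin d → ℤ} {ι : τ → σ} (hι : Function.Injective ι) {a b : τ →₀ ℕ}
    (h : Con (A ∘ ι) a b) : Con A (mapDomain ι a) (mapDomain ι b) := by
  induction h with
  | rel a b h =>
    obtain ⟨h, i, ha, hb⟩ := h
    exact Relation.EqvGen.rel _ _ ⟨by rw [dg_map, dg_map, h], ι i,
      by rwa [Finsupp.mapDomain_apply hι], by rwa [Finsupp.mapDomain_apply hι]⟩
  | refl => exact (con_eqv A).refl _
  | symm _ _ _ h => exact (con_eqv A).symm h
  | trans _ _ _ _ _ h h' => exact (con_eqv A).trans h h'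

/-- Degree in the variables outside `S`. -/
lemma ex_out (S : Set σ) : ∃ ψ : (σ →₀ ℕ) →+ ℕ, Monotone ψ ∧
    ∀ a, ψ a = 0 ↔ ∀ i, a i ≠ 0 → i ∈ S := by
  classical
  refine ⟨(Finsupp.weight fun i => if i ∈ S then 0 else 1), fun a b h => ?_, fun a => ?_⟩
  · obtain ⟨c, rfl⟩ := exists_add_of_le h
    rw [map_add]; exact le_self_add
  · rw [Finsupp.weight_apply, Finsupp.sum, Finset.sum_eq_zero_iff]
    refine forall_congr' fun i => ?_
    by_cases h : i ∈ S <;> simp [h]

lemma map_of {ι : τ → σ} (hι : Function.Injective ι) {a : σ →₀ ℕ}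
    (h : ∀ i, a i ≠ 0 → i ∈ Set.range ι) : mapDomain ι (comapDomain ι a hι.injOn) = a :=
  Finsupp.mapDomain_comapDomain ι hι a fun i hi => h i (Finsupp.mem_support_iff.1 hi)

lemma out_map {ι : τ → σ} (a : τ →₀ ℕ) (i : σ) (h : mapDomain ι a i ≠ 0) : i ∈ Set.range ι := by
  by_contra hn
  exact h (Finsupp.mapDomain_notin_range a i hn)

lemma map_lt {ι : τ → σ} (hι : Function.Injective ι) {a b : τ →₀ ℕ} :
    mapDomain ι a < mapDomain ι b ↔ a < b := by
  have : ∀ a b : τ →₀ ℕ, mapDomain ι a ≤ mapDomain ι b ↔ a ≤ b := fun a b =>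
    ⟨fun h i => by simpa only [Finsupp.mapDomain_apply hι] using h (ι i),
      fun h => Finsupp.mapDomain_mono h⟩
  rw [lt_iff_le_not_ge, lt_iff_le_not_ge, this, this]

lemma ugb_up [Finite σ] {A : σ → Fin d → ℤ} {ι : τ → σ} (hι : Function.Injective ι)
    {m' : MonomialOrder.{0, 0} τ} {u z : τ →₀ ℕ} (h : Good (A ∘ ι) m' u z) :
    ∃ m, Good A m (mapDomain ι u) (mapDomain ι z) := by
  obtain ⟨m0⟩ := exOrder σ
  obtain ⟨m1, h1⟩ := lexOrder (m'.toSyn.toAddMonoidHom.comp (Finsupp.comapDomain.addMonoidHom hι))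
    (fun a b hab => m'.toSyn_monotone fun i => hab (ι i)) m0
  obtain ⟨ψ, hψ, hψ0⟩ := ex_out (Set.range ι)
  obtain ⟨m, hm⟩ := lexOrder ψ hψ m1
  have hz : ∀ a : τ →₀ ℕ, ψ (mapDomain ι a) = 0 := fun a => (hψ0 _).2 (out_map a)
  have hlt : ∀ a b, m.toSyn (mapDomain ι a) < m.toSyn (mapDomain ι b) ↔
      m'.toSyn a < m'.toSyn b := by
    intro a b
    rw [hm, h1, hz, hz]
    have e : ∀ a, (m'.toSyn.toAddMonoidHom.comp (Finsupp.comapDomain.addMonoidHom hι))
        (mapDomain ι a) = m'.toSyn a := fun a =>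
      congrArg m'.toSyn (Finsupp.comapDomain_mapDomain ι hι a)
    rw [e, e]
    refine ⟨?_, fun h => Or.inr ⟨rfl, Or.inl h⟩⟩
    rintro (h | ⟨-, h | ⟨h, h'⟩⟩)
    · exact absurd h (lt_irrefl _)
    · exact h
    · rw [m'.toSyn.injective h] at h'; exact absurd h' (lt_irrefl _)
  have hns : ∀ a, NS A m (mapDomain ι a) → NS (A ∘ ι) m' a := by
    rintro a ⟨v, h2, h3⟩
    have : ψ v = 0 := by
      rw [hm, hz] at h3
      omega
    rw [← map_of hι ((hψ0 v).1 this)] at h2 h3
    exact ⟨_, by rwa [dg_map, dg_map] at h2, (hlt _ _).1 h3⟩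
  refine ⟨m, by rw [dg_map, dg_map, h.deg], (hlt _ _).2 h.lt, fun hn => h.std (hns _ hn),
    fun a ha hn => ?_⟩
  have : ∀ i, a i ≠ 0 → i ∈ Set.range ι := fun i hi => out_map u i (by
    have := ha.le i; omega)
  rw [← map_of hι this] at ha hn
  exact h.min _ ((map_lt hι).1 ha) (hns _ hn)

lemma ugb_down [Finite τ] {A : σ → Fin d → ℤ} {ι : τ → σ} (hι : Function.Injective ι)
    {f : MvPolynomial τ k} {p q : τ →₀ ℕ} (hf : f = Bin k p q)
    (h : rename ι f ∈ ugb (toric k A)) : f ∈ ugb (toric k (A ∘ ι)) := by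
  obtain ⟨m, u, z, hg, e⟩ := ugb_imp h
  have hne : u ≠ z := fun e => by simpa [e] using hg.lt
  have hr : ∀ a ∈ (Bin k u z).support, ∃ a', a = mapDomain ι a' := by
    intro a ha
    rw [← e, hf, ren_bin] at ha
    rcases supp_bin ha with h | h <;> exact ⟨_, h⟩
  obtain ⟨u, rfl⟩ := hr _ (left_supp hne)
  obtain ⟨z, rfl⟩ := hr _ (right_supp hne)
  rw [← ren_bin] at e
  rw [rename_injective ι hι e]
  obtain ⟨m0⟩ := exOrder τ
  obtain ⟨m', hm⟩ := lexOrder (m.toSyn.toAddMonoidHom.comp (Finsupp.mapDomain.addMonoidHom ι))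
    (fun a b hab => m.toSyn_monotone (Finsupp.mapDomain_mono hab)) m0
  have hlt : ∀ a b, m'.toSyn a < m'.toSyn b ↔
      m.toSyn (mapDomain ι a) < m.toSyn (mapDomain ι b) := by
    intro a b
    rw [hm]
    refine ⟨?_, Or.inl⟩
    rintro (h | ⟨h, h'⟩)
    · exact h
    · rw [Finsupp.mapDomain_injective hι (m.toSyn.injective h)] at h'
      exact absurd h' (lt_irrefl _)
  have hns : ∀ a, NS (A ∘ ι) m' a → NS A m (mapDomain ι a) := fun a ⟨v, h2, h3⟩ =>
    ⟨mapDomain ι v, by rwa [dg_map, dg_map], (hlt _ _).1 h3⟩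
  exact ugb_of (m := m') ⟨by simpa only [dg_map] using hg.deg, (hlt _ _).2 hg.lt,
    fun hn => hg.std (hns _ hn), fun a ha hn => hg.min _ ((map_lt hι).2 ha) (hns _ hn)⟩

section main
variable [Finite σ] [Finite τ] {A : σ → Fin d → ℤ} {W : (Fin d → ℤ) →+ ℚ} (hW : Grading A W)
  {ι : τ → σ} (hι : Function.Injective ι)
include hW hι

lemma u_sub (hU : ugb (toric k A) ⊆ markov (toric k A)) :
    ugb (toric k (A ∘ ι)) ⊆ markov (toric k (A ∘ ι)) := by
  intro f hf
  obtain ⟨m', u, z, hg, rfl⟩ := ugb_imp hf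
  obtain ⟨m, hm⟩ := ugb_up hι hg
  exact markov_of (W := W) ⟨fun i => hW.pos (ι i)⟩ hg.deg.symm
    fun hc => (markov_imp hW (hU (ugb_of hm))).2 (con_map hι hc)

lemma m_up (hU : ugb (toric k A) ⊆ markov (toric k A)) {f : MvPolynomial τ k}
    (hf : f ∈ markov (toric k (A ∘ ι))) :
    IsBinomial f ∧ rename ι f ∈ markov (toric k A) := by
  have hW' : Grading (A ∘ ι) W := ⟨fun i => hW.pos (ι i)⟩
  have hb : IsBinomial f := by
    obtain ⟨G, hb, -, hf⟩ := hf
    exact hb f hf
  refine ⟨hb, ?_⟩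
  obtain ⟨u, v, rfl⟩ := hb
  obtain ⟨huv, hc⟩ := markov_imp hW' hf
  have E := con_eqv (A ∘ ι)
  change rename ι (Bin k u v) ∈ _
  rw [ren_bin]
  refine markov_of hW (by rw [dg_map, dg_map, huv]) fun hcon => ?_
  obtain ⟨m0⟩ := exOrder τ
  by_cases hu0 : ∃ x, dg (A ∘ ι) x = dg (A ∘ ι) u ∧ x = 0
  · obtain ⟨x, hx, rfl⟩ := hu0
    have : ∀ y, dg (A ∘ ι) y = dg (A ∘ ι) u → y = 0 := by
      intro y hy
      by_contra h0
      obtain ⟨i, hi⟩ := Finsupp.ne_iff.1 h0
      obtain ⟨a', b', j, rfl, -, -⟩ := step_split (A := A ∘ ι) (a := y) (b := y) ⟨rfl, i, hi, hi⟩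
      have h1 := W_single (A := A ∘ ι) W a' j
      have h2 := W_nonneg hW' a'
      have h3 := hW'.pos j
      rw [hy, ← hx, map_zero, map_zero] at h1
      linarith
    rw [this v huv.symm, this u rfl] at hc
    exact hc (E.refl _)
  obtain ⟨ψ, hψ, hψ0⟩ := ex_out {i | ∃ x, Con (A ∘ ι) u x ∧ x i ≠ 0}
  obtain ⟨m', hm⟩ := lexOrder ψ hψ m0
  obtain ⟨z, hz, hz'⟩ := ex_std (A ∘ ι) m' (fun y => dg (A ∘ ι) y = dg (A ∘ ι) u) (u := u) rfl
  obtain ⟨y, hy, hy'⟩ := ex_std (A ∘ ι) m' (fun y => Con (A ∘ ι) v y) (E.refl v)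
  have huz : Con (A ∘ ι) u z := by
    have h1 : ψ u = 0 := (hψ0 u).2 fun i hi => ⟨u, E.refl u, hi⟩
    have h2 : ψ z = 0 := by
      have := hz' u rfl
      rw [hm, h1] at this
      omega
    obtain ⟨i, hi⟩ := Finsupp.ne_iff.1 fun h0 => hu0 ⟨z, hz, h0⟩
    obtain ⟨x, hx, hxi⟩ := (hψ0 z).1 h2 i hi
    exact E.trans hx (Relation.EqvGen.rel _ _ ⟨(con_dg hx).symm.trans hz.symm, i, hxi, hi⟩)
  have hyd : dg (A ∘ ι) y = dg (A ∘ ι) u := (con_dg hy).symm.trans huv.symm
  have hg : Good (A ∘ ι) m' y z := by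
    refine ⟨hz.trans hyd.symm, lt_of_le_of_ne (not_lt.1 (hz' y hyd)) fun e => ?_,
      fun ⟨x, h1, h2⟩ => hz' x (h1.trans hz) h2, fun a ha ⟨x, h1, h2⟩ => ?_⟩
    · rw [m'.toSyn.injective e] at huz
      exact hc (E.trans huz (E.symm hy))
    · obtain ⟨c, rfl⟩ := exists_add_of_le ha.le
      refine hy' (x + c) (E.trans hy (con_add h1.symm fun e => by simp [e] at ha)) ?_
      rw [map_add, map_add]; gcongr
  obtain ⟨m, hm⟩ := ugb_up hι hg
  have E' := con_eqv A
  exact (markov_imp hW (hU (ugb_of hm))).2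
    (E'.trans (E'.symm (con_map hι hy)) (E'.trans (E'.symm hcon) (con_map hι huz)))

omit hι [Finite τ] in
lemma m_neg {f : MvPolynomial σ k} (hf : -f ∈ markov (toric k A)) : f ∈ markov (toric k A) := by
  obtain ⟨u, v, e⟩ : IsBinomial (-f) := by
    obtain ⟨G, hb, -, hf⟩ := hf
    exact hb _ hf
  have e' : f = Bin k v u := by rw [← neg_neg f, e, neg_sub, Bin]
  rw [e] at hf
  obtain ⟨h1, h2⟩ := markov_imp hW hf
  rw [e']
  exact markov_of hW h1.symm fun h => h2 ((con_eqv A).symm h)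

end main

/-- Generalized robustness passes to elimination ideals. -/
theorem result (k : Type) [Field k] (n d : ℕ) (A : Fin n → Fin d → ℤ)
    (hA : ∃ w : Fin d → ℚ, ∀ i, 0 < ∑ j, w j * A i j) (S : Set (Fin n)) :
    (GenRobust (toric k A) → GenRobust (toric k fun i : S => A i)) ∧
    (GenRobustPM (toric k A) → GenRobustPM (toric k fun i : S => A i)) := by
  obtain ⟨w, hw⟩ := hA
  have hW : Grading A (AddMonoidHom.mk' (fun b => ∑ j, w j * b j) fun a b => by
      simp [mul_add, Finset.sum_add_distrib]) := ⟨hw⟩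
  have hι : Function.Injective (Subtype.val : S → Fin n) := Subtype.val_injective
  refine ⟨fun h => ?_, fun h => ?_⟩
  · refine (u_sub hW hι h.subset).antisymm fun f hf => ?_
    obtain ⟨⟨p, q, e⟩, h'⟩ := m_up hW hι h.subset hf
    exact ugb_down hι e (h.superset h')
  · have hU : ugb (toric k A) ⊆ markov (toric k A) := fun f hf => h.subset (Or.inl hf)
    refine Set.Subset.antisymm ?_ fun f hf => ?_
    · rintro f (hf | hf)
      · exact u_sub hW hι hU hf
      · exact m_neg (A := A ∘ Subtype.val) ⟨fun i => hW.pos i.1⟩ (u_sub hW hι hU hf)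
    · obtain ⟨⟨p, q, e⟩, h'⟩ := m_up hW hι hU hf
      rcases h.superset h' with h1 | h1
      · exact Or.inl (ugb_down hι e h1)
      · exact Or.inr (ugb_down hι (p := q) (q := p) (by rw [e, neg_sub, Bin])
          (by rwa [map_neg]))

end Pool.Agent.Results.MP_1df74f_al.Yes
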